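import Mathlib
import Pool.Agent.Results.MP_59a3d4_lc.NoSplit

set_option autoImplicit false

open Submodule Encodable

namespace Pool.Agent.Results.MP_59a3d4_lc.DecidableNoSplit

open Pool.Agent.Results.MP_59a3d4_lc.NoSplit

section comput

variable {α : Type*} {σ : Type*} [Primcodable α] [Primcodable σ]

theorem eq_dec [DecidableEq σ] {f g : α → σ} (hf : Computable f) (hg : Computable g) :
    Computable (fun a => decide (f a = g a)) :=
  ((Primrec.eq (α := σ)).decide.to_comp).comp hf hg

theorem and_dec {f g : α → Bool} (hf : Computable f) (hg : Computable g) :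
    Computable (fun a => f a && g a) :=
  (Primrec.and.to_comp).comp hf hg

theorem count_computable {p : ℕ → Prop} [DecidablePred p]
    (hp : Computable fun n => decide (p n)) : Computable (Nat.count p) := by
  have h1 : Computable (fun n : ℕ => (Nat.rec (motive := fun _ => ℕ) 0
      (fun k s => s + (bif decide (p k) then 1 else 0)) n : ℕ)) := by
    refine Computable.nat_rec (f := fun n : ℕ => n) (h := fun (_ : ℕ) (q : ℕ × ℕ) =>
      q.2 + (bif decide (p q.1) then 1 else 0)) Computable.id (Computable.const 0) ?_
    have h2 : Computable₂ (fun (_ : ℕ) (q : ℕ × ℕ) => q.2) :=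
      (Computable.snd.comp Computable.snd).to₂
    have h3 : Computable₂ (fun (_ : ℕ) (q : ℕ × ℕ) => (bif decide (p q.1) then 1 else 0 : ℕ)) :=
      (Computable.cond (hp.comp (Computable.fst.comp Computable.snd)) (Computable.const 1)
        (Computable.const 0)).to₂
    exact (Primrec.nat_add.to_comp).comp₂ h2 h3
  refine h1.of_eq fun n => ?_
  induction n with
  | zero => simp
  | succ n ih =>
    rw [Nat.count_succ, ← ih]
    by_cases h : p n <;> simp [h]

theorem nth_computable {p : ℕ → Prop} [DecidablePred p]
    (hp : Computable fun n => decide (p n)) (hinf : (Set.ofPred p).Infinite) :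
    Computable (Nat.nth p) := by
  have hc := count_computable hp
  have h1 : Computable₂ (fun (k m : ℕ) => decide (p m) && decide (Nat.count p m = k)) :=
    (and_dec (hp.comp Computable.snd) (eq_dec (hc.comp Computable.snd) Computable.fst)).to₂
  have h2 := Partrec.rfind (h1.partrec₂)
  refine h2.of_eq_tot fun k => ?_
  rw [Nat.mem_rfind]
  constructor
  · have : (decide (p (Nat.nth p k)) && decide (Nat.count p (Nat.nth p k) = k)) = true := by
      rw [Bool.and_eq_true, decide_eq_true_eq, decide_eq_true_eq]
      exact ⟨Nat.nth_mem_of_infinite hinf k, Nat.count_nth_of_infinite hinf k⟩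
    rw [PFun.coe_val, this]
    exact Part.mem_some _
  · intro m hm
    have : (decide (p m) && decide (Nat.count p m = k)) = false := by
      rw [Bool.and_eq_false_iff]
      by_cases h : p m
      · right
        rw [decide_eq_false_iff_not]
        intro h'
        have := Nat.nth_count h
        rw [h'] at this
        omega
      · left
        simpa using h
    rw [PFun.coe_val, this]
    exact Part.mem_some _

/-- An infinite computable set has a computable injective enumeration. -/
theorem enumeration (d : α) (B : Set α) (hB : ComputablePred (fun x => x ∈ B))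
    (hinf : B.Infinite) :
    ∃ e : ℕ → α, Computable e ∧ Function.Injective e ∧ Set.range e = B := by
  classical
  obtain ⟨hd, hB⟩ := hB
  let q : ℕ → Bool := fun n => ((decode n : Option α).map
      (fun x => decide (x ∈ B) && decide (encode x = n))).getD false
  have hq : Computable q := by
    have hg : Computable₂ (fun (n : ℕ) (x : α) => decide (x ∈ B) && decide (encode x = n)) := by
      refine Computable.to₂ (f := fun q : ℕ × α => decide (q.2 ∈ B) && decide (encode q.2 = q.1)) ?_
      refine and_dec ?_ ?_
      · exact (hB.comp Computable.snd).of_eq (fun a => by congr)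
      · exact eq_dec (Computable.encode.comp Computable.snd) Computable.fst
    exact Computable.option_getD (Computable.option_map Computable.decode hg) (Computable.const _)
  let p : ℕ → Prop := fun n => q n = true
  have hp : Computable fun n => decide (p n) := hq.of_eq fun n => by simp [p]
  have hpe : ∀ n, p n ↔ ∃ x ∈ B, encode x = n := by
    intro n
    simp only [p, q]
    constructor
    · intro h
      cases hx : (decode n : Option α) with
      | none => rw [hx] at h; simp at h
      | some x =>
        rw [hx] at h
        simp only [Option.map_some, Option.getD_some, Bool.and_eq_true, decide_eq_true_eq] at h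
        exact ⟨x, h.1, h.2⟩
    · rintro ⟨x, hx, rfl⟩
      rw [encodek]
      simp [hx]
  have hinfp : (Set.ofPred p).Infinite := by
    have : Set.ofPred p = encode '' B := by
      ext n
      simp only [Set.mem_image]
      exact hpe n
    rw [this]
    exact hinf.image (encode_injective.injOn)
  have hn := nth_computable hp hinfp
  let e : ℕ → α := fun k => ((decode (Nat.nth p k) : Option α)).getD d
  have hek : ∀ k, e k ∈ B ∧ encode (e k) = Nat.nth p k := by
    intro k
    obtain ⟨x, hx, hxk⟩ := (hpe _).1 (Nat.nth_mem_of_infinite hinfp k)
    have : e k = x := by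
      simp only [e, ← hxk, encodek, Option.getD_some]
    rw [this]
    exact ⟨hx, hxk⟩
  refine ⟨e, ?_, ?_, ?_⟩
  · exact Computable.option_getD (Computable.decode.comp hn) (Computable.const _)
  · intro k l hkl
    have h1 := (hek k).2
    rw [hkl, (hek l).2] at h1
    exact (Nat.nth_injective hinfp h1).symm
  · ext x
    constructor
    · rintro ⟨k, rfl⟩
      exact (hek k).1
    · intro hx
      have hpx : p (encode x) := (hpe _).2 ⟨x, hx, rfl⟩
      refine ⟨Nat.count p (encode x), ?_⟩
      have h1 := (hek (Nat.count p (encode x))).2
      rw [Nat.nth_count hpx] at h1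
      exact encode_injective h1

end comput

section lin

variable {F : Type*} {V : Type*} [Field F] [Primcodable F] [AddCommGroup V] [Module F V]
  [Primcodable V]

/-- The linear combination of `v 0, v 1, ...` with the coefficients in the list `l`. -/
noncomputable def comb (v : ℕ → V) (l : List F) : V :=
  ∑ i ∈ Finset.range l.length, ((l[i]?).getD 0) • v i

theorem comb_computable (hadd : Computable₂ (fun x y : V => x + y))
    (hsmul : Computable₂ (fun (a : F) (x : V) => a • x)) {v : ℕ → V} (hv : Computable v) :
    Computable (comb (F := F) v) := by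
  have h1 : Computable (fun l : List F => (Nat.rec (motive := fun _ => V) (0 : V)
      (fun k s => s + (((l[k]?).getD 0) • v k)) l.length : V)) := by
    refine Computable.nat_rec (h := fun (l : List F) (q : ℕ × V) =>
      q.2 + (((l[q.1]?).getD 0) • v q.1)) Computable.list_length (Computable.const 0) ?_
    have h2 : Computable₂ (fun (_ : List F) (q : ℕ × V) => q.2) :=
      (Computable.snd.comp Computable.snd).to₂
    have h4 : Computable₂ (fun (l : List F) (q : ℕ × V) => ((l[q.1]?).getD 0 : F)) :=
      (Computable.option_getD (Computable.list_getElem?.comp Computable.fst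
        (Computable.fst.comp Computable.snd)) (Computable.const 0)).to₂
    have h5 : Computable₂ (fun (_ : List F) (q : ℕ × V) => v q.1) :=
      (hv.comp (Computable.fst.comp Computable.snd)).to₂
    exact hadd.comp₂ h2 (hsmul.comp₂ h4 h5)
  refine h1.of_eq fun l => ?_
  unfold comb
  generalize l.length = n
  induction n with
  | zero => simp
  | succ n ih => rw [Finset.sum_range_succ, ← ih]

omit [Primcodable F] [Primcodable V] in
theorem comb_map (v : ℕ → V) (c : List F) (T : V →ₗ[F] V) :
    T (comb v c) = comb (fun i => T (v i)) c := by
  unfold comb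
  rw [map_sum]
  simp

omit [Primcodable F] [Primcodable V] in
theorem comb_surj (b : Module.Basis ℕ F V) (x : V) : ∃ c : List F, comb b c = x := by
  obtain ⟨N, hN⟩ : ∃ N : ℕ, ∀ i, N ≤ i → b.repr x i = 0 := by
    obtain ⟨N, hN⟩ := (b.repr x).support.finite_toSet.bddAbove
    refine ⟨N + 1, fun i hi => ?_⟩
    by_contra h
    have : i ≤ N := hN (by simpa using h)
    omega
  refine ⟨List.ofFn (fun i : Fin N => b.repr x i), ?_⟩
  unfold comb
  rw [List.length_ofFn]
  conv_rhs => rw [← b.linearCombination_repr x, Finsupp.linearCombination_apply]
  rw [Finsupp.sum_of_support_subset (s := Finset.range N)]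
  · refine Finset.sum_congr rfl fun i hi => ?_
    rw [Finset.mem_range] at hi
    simp [hi]
  · intro i hi
    rw [Finset.mem_range]
    by_contra h
    rw [Finsupp.mem_support_iff] at hi
    exact hi (hN i (by omega))
  · simp

/-- A linear map with computable values on a computable basis is computable. -/
theorem linear_computable (hadd : Computable₂ (fun x y : V => x + y))
    (hsmul : Computable₂ (fun (a : F) (x : V) => a • x)) (b : Module.Basis ℕ F V)
    (hb : Computable (fun i => b i)) (T : V →ₗ[F] V) (hT : Computable (fun i => T (b i))) :
    Computable (fun x => T x) := by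
  classical
  have h1 := comb_computable (F := F) hadd hsmul hb
  have h2 := comb_computable (F := F) hadd hsmul hT
  let f : V → ℕ → Option V := fun x n => (decode n : Option (List F)).bind
    (fun c => bif decide (comb b c = x) then some (comb (fun i => T (b i)) c) else none)
  have hf : Computable₂ f := by
    have hg : Computable₂ (fun (a : V × ℕ) (c : List F) => (bif decide (comb b c = a.1) then
        some (comb (fun i => T (b i)) c) else none : Option V)) := by
      refine Computable.to₂ (f := fun q : (V × ℕ) × List F => (bif decide (comb b q.2 = q.1.1) then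
        some (comb (fun i => T (b i)) q.2) else none : Option V)) ?_
      refine Computable.cond ?_ ?_ ?_
      · exact eq_dec (h1.comp Computable.snd) (Computable.fst.comp Computable.fst)
      · exact Computable.option_some.comp (h2.comp Computable.snd)
      · exact Computable.const _
    exact (Computable.option_bind (f := fun a : V × ℕ => (decode a.2 : Option (List F)))
      (Computable.decode.comp Computable.snd) hg).to₂
  refine (Partrec.rfindOpt hf).of_eq_tot fun x => ?_
  have hval : ∀ n y, y ∈ f x n → y = T x := by
    intro n y hy
    simp only [f, Option.mem_def, Option.bind_eq_some_iff] at hy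
    obtain ⟨c, -, hc⟩ := hy
    by_cases h : comb b c = x
    · rw [decide_eq_true h, cond_true, Option.some_inj] at hc
      rw [← hc, ← comb_map, h]
    · rw [decide_eq_false h, cond_false] at hc
      exact absurd hc (by simp)
  have hdom : (Nat.rfindOpt (f x)).Dom := by
    rw [Nat.rfindOpt_dom]
    obtain ⟨c, hc⟩ := comb_surj b x
    refine ⟨encode c, comb (fun i => T (b i)) c, ?_⟩
    simp [f, hc]
  obtain ⟨y, hy⟩ := Part.dom_iff_mem.1 hdom
  obtain ⟨n, hn⟩ := Nat.rfindOpt_spec hy
  rw [hval n y hn] at hy
  exact hy

end lin

/-- Over every field `F` with a coding and every vector space `V` with a coding whose addition and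
scalar multiplication are computable: if `V` is infinite-dimensional and `B` is a computable basis
of `V`, then there are decidable subspaces `V₁` and `V₂` with `V₁ ⊕ V₂ = V` with respect to which
`B` has no good splitting, computable or not. -/
theorem result {F V : Type*} [Field F] [Primcodable F] [AddCommGroup V] [Module F V]
    [Primcodable V] (hadd : Computable₂ (fun x y : V => x + y))
    (hsmul : Computable₂ (fun (a : F) (x : V) => a • x))
    (hV : ¬ FiniteDimensional F V) (B : Set V) (hB : ComputablePred (fun x => x ∈ B))
    (hlin : LinearIndepOn F id B) (hspan : span F B = ⊤) :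
    ∃ V₁ V₂ : Submodule F V, ComputablePred (fun x => x ∈ V₁) ∧ ComputablePred (fun x => x ∈ V₂) ∧
      IsCompl V₁ V₂ ∧
      ¬ ∃ B₁ B₂ : Set V, B₁ ∪ B₂ = B ∧ Disjoint B₁ B₂ ∧
        IsCompl V₁ (span F B₁) ∧ IsCompl V₂ (span F B₂) := by
  classical
  have hinf : B.Infinite := by
    intro hfin
    have : Finite B := hfin
    let b : Module.Basis B F V := Module.Basis.mk (v := ((↑) : B → V)) hlin (by
      rw [Subtype.range_coe_subtype]; simp [hspan])
    exact hV (Module.Finite.of_basis b)
  obtain ⟨e, he, hinj, hran⟩ := enumeration (0 : V) B hB hinf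
  have hli : LinearIndependent F e := by
    have h1 : LinearIndepOn F id (Set.range e) := by rw [hran]; exact hlin
    exact (linearIndepOn_id_range_iff hinj).1 h1
  let b : Module.Basis ℕ F V := Module.Basis.mk hli (by rw [hran, hspan])
  have hb : ∀ i, b i = e i := fun i => Module.Basis.mk_apply _ _ i
  have hbc : Computable (fun i => b i) := he.of_eq fun i => (hb i).symm
  let j : ℕ ⊕ ℕ ↪ ℕ := Equiv.natSumNatEquivNat.toEmbedding
  have hj1 : ∀ k, j (Sum.inl k) = 2 * k := fun k => by simp [j]
  have hj2 : ∀ k, j (Sum.inr k) = 2 * k + 1 := fun k => by simp [j]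
  have hsub : Computable₂ (fun x y : V => x - y) := by
    have h := hadd.comp₂ (Computable.fst.to₂ : Computable₂ (fun (x y : V) => x))
      ((hsmul.comp (Computable.const (-1 : F)) Computable.snd).to₂ :
        Computable₂ (fun (x y : V) => (-1 : F) • y))
    refine Computable₂.mk (Computable.of_eq (f := fun p : V × V => p.1 + (-1 : F) • p.2) h ?_)
    intro p
    rw [neg_one_smul, sub_eq_add_neg]
  have hP : Computable (fun i => P b j (b i)) := by
    have hs : ∀ m, Computable (fun i : ℕ => b (i + m)) := fun m =>
      hbc.comp ((Primrec.nat_add.to_comp).comp Computable.id (Computable.const m))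
    have h1 : Computable (fun i : ℕ => bif Nat.bodd i then (b (i + 1) + b (i + 0))
        - (b (i + 3) + b (i + 2)) else b (i + 2) + b (i + 1)) := by
      refine Computable.cond Computable.nat_bodd ?_ ?_
      · exact hsub.comp (hadd.comp (hs 1) (hs 0)) (hadd.comp (hs 3) (hs 2))
      · exact hadd.comp (hs 2) (hs 1)
    refine h1.of_eq fun i => ?_
    rcases Nat.even_or_odd' i with ⟨k, rfl | rfl⟩
    · have h := P_u b j k
      rw [hj1, hj1, hj2] at h
      rw [h]
      simp [mul_add]
    · have h := P_z b j k
      rw [hj1, hj1, hj2, hj2] at h
      rw [h]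
      simp only [Nat.bodd_succ, Nat.bodd_mul]
      rfl
  have hPc := linear_computable hadd hsmul b hbc (P b j) hP
  have hidem := P_idem b j
  refine ⟨LinearMap.range (P b j), LinearMap.ker (P b j), ?_, ?_,
    LinearMap.IsIdempotentElem.isCompl hidem, ?_⟩
  · have h : Computable (fun x => decide (P b j x = x)) := eq_dec hPc Computable.id
    refine ⟨fun x => decidable_of_iff (P b j x = x) ?_, ?_⟩
    · constructor
      · intro h; exact ⟨x, h⟩
      · rintro ⟨y, rfl⟩
        exact LinearMap.congr_fun hidem y
    · refine h.of_eq fun x => ?_
      apply decide_eq_decide.2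
      constructor
      · intro h; exact ⟨x, h⟩
      · rintro ⟨y, rfl⟩
        exact LinearMap.congr_fun hidem y
  · have h : Computable (fun x => decide (P b j x = 0)) := eq_dec hPc (Computable.const 0)
    exact ⟨fun x => decidable_of_iff (P b j x = 0) Iff.rfl, h.of_eq fun x => by
      apply decide_eq_decide.2; exact Iff.rfl⟩
  · rintro ⟨B₁, B₂, hun, hd, h1, h2⟩
    have himg : ∀ C : Set V, C ⊆ B → b '' {i : ℕ | e i ∈ C} = C := by
      intro C hC
      ext x
      constructor
      · rintro ⟨i, hi, rfl⟩
        rw [hb i]; exact hi
      · intro hx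
        have hxB := hC hx
        rw [← hran] at hxB
        obtain ⟨i, rfl⟩ := hxB
        exact ⟨i, hx, hb _⟩
    have hB1 : B₁ ⊆ B := hun ▸ Set.subset_union_left
    have hB2 : B₂ ⊆ B := hun ▸ Set.subset_union_right
    refine core b j {i : ℕ | e i ∈ B₁} {i : ℕ | e i ∈ B₂} ?_ ?_ ?_ ?_
    · ext i
      simp only [Set.mem_union, Set.mem_ofPred_eq, Set.mem_univ, iff_true]
      have : e i ∈ B₁ ∪ B₂ := by rw [hun, ← hran]; exact ⟨i, rfl⟩
      exact this
    · rw [Set.disjoint_left]
      intro i hi hi'
      exact Set.disjoint_left.1 hd hi hi'
    · rw [himg B₁ hB1]; exact h1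
    · rw [himg B₂ hB2]; exact h2

end Pool.Agent.Results.MP_59a3d4_lc.DecidableNoSplit
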